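import Pool.Agent.MP_07c73e_al.H95.Main

open Pool.Agent.MP_07c73e_al.H96 Pool.Agent.MP_07c73e_al.H95

/-- Let `P` be a profinite loop-group of type `(0,4)`, `l` a basis of `P` and `π₀` the
discretification generated by `l`.  There is a second basis `l'`, made of conjugates of the loops
`l i`, whose discretification `π₁` has a different plus part; even the pure part for `π₁` is not
contained in the whole group for `π₀`.  The plus part, the pure part and every group between the
discrete pure part and the whole group for `π₀` fail to be normal. -/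
theorem Pool.Agent.Results.MP_07c73e_al.TwoDiscretifications.result
    (P : Type) [Group P] [TopologicalSpace P] [IsTopologicalGroup P] [CompactSpace P]
    [TotallyDisconnectedSpace P]
    (e : P ≃ₜ* ProfiniteGrp.ProfiniteCompletion.completion (GrpCat.of Pi04))
    (l : Fin 4 → P) (hl : IsBasis l) :
    (∃ l' : Fin 4 → P, IsBasis l' ∧ (∀ i, IsConj (l i) (l' i)) ∧ Differ l (disc l) (disc l')) ∧
    ¬ (tPlus l (disc l)).Normal ∧ ¬ (tPure l (disc l)).Normal ∧ NoNormal l (disc l) := by
  obtain ⟨⟨l', h1, h2, h3⟩, h4⟩ := main e l hl.1 hl.2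
  exact ⟨⟨l', ⟨h1, h2⟩, h3⟩, h4⟩
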